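import Mathlib

set_option autoImplicit false

open Set Topology
open scoped Cardinal Pointwise

namespace Pool.Agent.Results.MP_79deac_al.NoIndependentPair

universe u

/-- The Zariski topology of an abelian group: generated by taking as a subbase of closed sets
all solution sets `{x | n • x = g}` with `n : ℤ` and `g : G`. -/
def zariskiTopology (G : Type u) [AddCommGroup G] : TopologicalSpace G :=
  TopologicalSpace.generateFrom {U | ∃ (n : ℤ) (g : G), U = {x : G | n • x = g}ᶜ}

/-- `G` is Zariski-cofinite: a set is Zariski-open iff it is empty or has finite complement. -/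
def IsZariskiCofinite (G : Type u) [AddCommGroup G] : Prop :=
  ∀ U : Set G, IsOpen[zariskiTopology G] U ↔ (U = ∅ ∨ Uᶜ.Finite)

/-- `τ` is a Hausdorff group topology on the abelian group `G`. -/
def IsHausdorffGroupTopology (G : Type u) [AddCommGroup G] (τ : TopologicalSpace G) : Prop :=
  @T2Space G τ ∧ @IsTopologicalAddGroup G τ _

/-- `τ₁` and `τ₂` are independent: their intersection (the family of sets open in both) is exactly
the cofinite topology. -/
def Independent {X : Type u} (τ₁ τ₂ : TopologicalSpace X) : Prop :=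
  ∀ U : Set X, (IsOpen[τ₁] U ∧ IsOpen[τ₂] U) ↔ (U = ∅ ∨ Uᶜ.Finite)

/-! ### Cardinality of closures -/

/-- In a Hausdorff space a closure has cardinality at most `2 ^ 2 ^ #A`. -/
theorem mk_closure_le {X : Type u} [TopologicalSpace X] [T2Space X] (A : Set X) :
    #(closure A) ≤ 2 ^ (2 ^ #A : Cardinal.{u}) := by
  classical
  have e : #(Set (Set A)) = 2 ^ (2 ^ #A : Cardinal.{u}) := by
    rw [Cardinal.mk_set, Cardinal.mk_set]
  rw [← e]
  refine Cardinal.mk_le_of_injective
    (f := fun x : closure A => {S : Set A | ∃ U : Set X, IsOpen U ∧ (x : X) ∈ U ∧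
      S = {a : A | (a : X) ∈ U}}) ?_
  intro x y hxy
  by_contra hne
  have hne' : (x : X) ≠ y := fun h => hne (Subtype.ext h)
  obtain ⟨U, V, hU, hV, hxU, hyV, hUV⟩ := t2_separation hne'
  have h1 : {a : A | (a : X) ∈ U} ∈ {S : Set A | ∃ W : Set X, IsOpen W ∧ (x : X) ∈ W ∧
      S = {a : A | (a : X) ∈ W}} := ⟨U, hU, hxU, rfl⟩
  have hxy' : {S : Set A | ∃ W : Set X, IsOpen W ∧ (x : X) ∈ W ∧
      S = {a : A | (a : X) ∈ W}} = {S : Set A | ∃ W : Set X, IsOpen W ∧ (y : X) ∈ W ∧
      S = {a : A | (a : X) ∈ W}} := hxy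
  rw [hxy'] at h1
  obtain ⟨W, hW, hyW, hWU⟩ := h1
  have hy : (y : X) ∈ closure A := y.2
  rw [mem_closure_iff] at hy
  obtain ⟨z, hz, hzA⟩ := hy (W ∩ V) (hW.inter hV) ⟨hyW, hyV⟩
  have : (⟨z, hzA⟩ : A) ∈ {a : A | (a : X) ∈ U} := by
    rw [hWU]; exact hz.1
  exact Set.disjoint_left.1 hUV this hz.2

/-- The additive subgroup generated by a set of size `< κ`, `κ` uncountable, has size `< κ`. -/
theorem mk_addSubgroup_closure_lt {G : Type u} [AddCommGroup G] (κ : Cardinal.{u}) (hκ : ℵ₀ < κ)
    (U : Set G) (hU : #U < κ) : #(AddSubgroup.closure U) < κ := by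
  classical
  have h1 : (AddSubgroup.closure U : Set G) ⊆
      Set.range (fun f : U →₀ ℤ => f.sum fun a n => n • (a : G)) := by
    intro x hx
    induction hx using AddSubgroup.closure_induction with
    | mem x hx => exact ⟨Finsupp.single ⟨x, hx⟩ 1, by simp⟩
    | zero => exact ⟨0, by simp⟩
    | add x y _ _ hx hy =>
      obtain ⟨f, rfl⟩ := hx
      obtain ⟨g, rfl⟩ := hy
      refine ⟨f + g, ?_⟩
      simp only
      rw [Finsupp.sum_add_index']
      · intro a; simp
      · intro a b c; rw [add_smul]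
    | neg x _ hx =>
      obtain ⟨f, rfl⟩ := hx
      refine ⟨-f, ?_⟩
      simp only
      rw [Finsupp.sum_neg_index]
      · simp [Finsupp.sum]
      · intro a; simp
  have h2 : #(AddSubgroup.closure U) ≤ #(U →₀ ℤ) :=
    (Cardinal.mk_le_mk_of_subset h1).trans Cardinal.mk_range_le
  refine lt_of_le_of_lt h2 ?_
  by_cases hne : Nonempty U
  · have h3 := Cardinal.mk_finsupp_lift_of_infinite' U ℤ
    rw [h3]
    simp only [Cardinal.lift_uzero, Cardinal.mk_int, Cardinal.lift_aleph0]
    exact max_lt hU hκ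
  · have : IsEmpty U := not_nonempty_iff.1 hne
    have : #(U →₀ ℤ) ≤ 1 := by
      rw [Cardinal.le_one_iff_subsingleton]
      infer_instance
    exact lt_of_le_of_lt this (lt_trans Cardinal.one_lt_aleph0 hκ)

/-! ### Locally finite sequences of open sets -/

/-- Case of an open subgroup of infinite index. -/
theorem exists_locallyFinite_of_subgroup {G : Type u} [AddCommGroup G] [TopologicalSpace G]
    [IsTopologicalAddGroup G] (H : AddSubgroup G) (hH : IsOpen (H : Set G))
    (hinf : Infinite (G ⧸ H)) :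
    ∃ V : ℕ → Set G, (∀ n, IsOpen (V n) ∧ (V n).Nonempty) ∧ LocallyFinite V := by
  have : DiscreteTopology (G ⧸ H) := QuotientAddGroup.discreteTopology hH
  obtain ⟨f, hf⟩ : ∃ f : ℕ → G ⧸ H, Function.Injective f := ⟨_, (Infinite.natEmbedding _).injective⟩
  have hcont : Continuous (QuotientAddGroup.mk : G → G ⧸ H) := continuous_quotient_mk'
  refine ⟨fun n => (QuotientAddGroup.mk : G → G ⧸ H) ⁻¹' {f n}, ?_, ?_⟩
  · intro n
    refine ⟨(isOpen_discrete _).preimage hcont, ?_⟩
    obtain ⟨x, hx⟩ := QuotientAddGroup.mk_surjective (f n)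
    exact ⟨x, hx⟩
  · intro x
    refine ⟨(QuotientAddGroup.mk : G → G ⧸ H) ⁻¹' {(x : G ⧸ H)},
      ((isOpen_discrete _).preimage hcont).mem_nhds rfl, ?_⟩
    refine Set.Subsingleton.finite ?_
    rintro n ⟨a, ha1, ha2⟩ m ⟨b, hb1, hb2⟩
    have ha1' : (a : G ⧸ H) = f n := ha1
    have ha2' : (a : G ⧸ H) = x := ha2
    have hb1' : (b : G ⧸ H) = f m := hb1
    have hb2' : (b : G ⧸ H) = x := hb2
    apply hf
    rw [← ha1', ha2', ← hb2', hb1']

/-- The Baire-type argument: every nonempty open set is as large as the group. -/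
theorem exists_locallyFinite_of_large {G : Type u} [AddCommGroup G] [TopologicalSpace G]
    [IsTopologicalAddGroup G] [T2Space G] (A : ℕ → Set G) (hA : ⋃ n, A n = univ)
    (hcard : ∀ n, 2 ^ (2 ^ #(A n) : Cardinal.{u}) < #G)
    (hlarge : ∀ U : Set G, IsOpen U → U.Nonempty → #G ≤ #U) (hne : Nonempty G) :
    ∃ V : ℕ → Set G, (∀ n, IsOpen (V n) ∧ (V n).Nonempty) ∧ LocallyFinite V := by
  classical
  have step : ∀ (n : ℕ) (U : {U : Set G // IsOpen U ∧ U.Nonempty}),
      ∃ W : {U : Set G // IsOpen U ∧ U.Nonempty},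
        closure (W : Set G) ⊆ (U : Set G) \ closure (A n) := by
    rintro n ⟨U, hU, hUne⟩
    have hlt : #(closure (A n)) < #U :=
      lt_of_lt_of_le (lt_of_le_of_lt (mk_closure_le (A n)) (hcard n)) (hlarge U hU hUne)
    have hnon : (U \ closure (A n)).Nonempty := by
      by_contra hcon
      rw [Set.not_nonempty_iff_eq_empty, Set.sdiff_eq_empty] at hcon
      exact absurd (Cardinal.mk_le_mk_of_subset hcon) (not_le.2 hlt)
    obtain ⟨x, hx⟩ := hnon
    have hop : IsOpen (U \ closure (A n)) := hU.sdiff isClosed_closure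
    obtain ⟨t, ht, htc, hts⟩ := exists_mem_nhds_isClosed_subset (hop.mem_nhds hx)
    exact ⟨⟨interior t, isOpen_interior, x, mem_interior_iff_mem_nhds.2 ht⟩,
      (closure_minimal interior_subset htc).trans hts⟩
  choose next hnext using step
  let V : ℕ → {U : Set G // IsOpen U ∧ U.Nonempty} :=
    fun n => Nat.rec (motive := fun _ => {U : Set G // IsOpen U ∧ U.Nonempty})
      ⟨univ, isOpen_univ, univ_nonempty⟩ (fun n U => next n U) n
  have hV : ∀ n, closure (V (n + 1) : Set G) ⊆ (V n : Set G) \ closure (A n) :=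
    fun n => hnext n (V n)
  have hanti : ∀ n m, n ≤ m → (V m : Set G) ⊆ V n := by
    intro n m hnm
    induction m, hnm using Nat.le_induction with
    | base => exact subset_rfl
    | succ m _ ih => exact fun x hx => ih ((hV m) (subset_closure hx)).1
  refine ⟨fun n => (V n : Set G), fun n => (V n).2, ?_⟩
  intro x
  have hx : x ∈ ⋃ n, A n := by rw [hA]; trivial
  obtain ⟨n, hn⟩ := mem_iUnion.1 hx
  refine ⟨(closure (V (n + 1) : Set G))ᶜ, isClosed_closure.isOpen_compl.mem_nhds ?_, ?_⟩
  · intro hcon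
    exact ((hV n) hcon).2 (subset_closure hn)
  · refine (Set.finite_lt_nat (n + 1)).subset ?_
    rintro m ⟨y, hy1, hy2⟩
    by_contra hm
    have hm' : n + 1 ≤ m := not_lt.1 hm
    exact hy2 (subset_closure (hanti _ _ hm' hy1))

/-- A Hausdorff group whose cardinality is an uncountable strong limit of countable cofinality
has a locally finite sequence of nonempty open sets. -/
theorem exists_locallyFinite {G : Type u} [AddCommGroup G] (τ : TopologicalSpace G)
    (hτ : IsHausdorffGroupTopology G τ) (hunc : ℵ₀ < #G) (A : ℕ → Set G)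
    (hA : ⋃ n, A n = univ) (hcard : ∀ n, 2 ^ (2 ^ #(A n) : Cardinal.{u}) < #G) :
    ∃ V : ℕ → Set G, (∀ n, IsOpen[τ] (V n) ∧ (V n).Nonempty) ∧ @LocallyFinite ℕ G τ V := by
  letI := τ
  have : T2Space G := hτ.1
  have : IsTopologicalAddGroup G := hτ.2
  by_cases hlarge : ∀ U : Set G, IsOpen U → U.Nonempty → #G ≤ #U
  · exact exists_locallyFinite_of_large A hA hcard hlarge ⟨0⟩
  · push Not at hlarge
    obtain ⟨U, hU, ⟨x, hx⟩, hcU⟩ := hlarge
    set H : AddSubgroup G := AddSubgroup.closure ((fun y => y + x) ⁻¹' U) with hH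
    have hcard' : #((fun y : G => y + x) ⁻¹' U) ≤ #U := by
      refine Cardinal.mk_preimage_of_injective _ _ (add_left_injective x)
    have hHcard : #H < #G := mk_addSubgroup_closure_lt #G hunc _ (lt_of_le_of_lt hcard' hcU)
    have hopen : IsOpen (H : Set G) := by
      refine AddSubgroup.isOpen_of_mem_nhds H (g := 0) ?_
      have : (fun y => y + x) ⁻¹' U ∈ 𝓝 (0 : G) := by
        refine (hU.preimage (continuous_add_const x)).mem_nhds ?_
        simpa using hx
      exact Filter.mem_of_superset this AddSubgroup.subset_closure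
    refine exists_locallyFinite_of_subgroup H hopen ?_
    by_contra hfin
    rw [not_infinite_iff_finite] at hfin
    have h1 : #G = #(G ⧸ H) * #H := by
      rw [Cardinal.mk_congr (AddSubgroup.addGroupEquivQuotientProdAddSubgroup (s := H))]
      simp
    have h2 : #(G ⧸ H) < ℵ₀ := Cardinal.lt_aleph0_of_finite _
    have : #G < #G := by
      conv_lhs => rw [h1]
      exact Cardinal.mul_lt_of_lt hunc.le (h2.trans hunc) hHcard
    exact lt_irrefl _ this

/-! ### Independent topologies -/

theorem not_independent {G : Type u} [AddCommGroup G] (hunc : ℵ₀ < #G) (A : ℕ → Set G)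
    (hA : ⋃ n, A n = univ) (hcard : ∀ n, 2 ^ (2 ^ #(A n) : Cardinal.{u}) < #G)
    (τ₁ τ₂ : TopologicalSpace G) (h₁ : IsHausdorffGroupTopology G τ₁)
    (h₂ : IsHausdorffGroupTopology G τ₂) : ¬ Independent τ₁ τ₂ := by
  intro hind
  have hinfG : Infinite G := Cardinal.infinite_iff.2 hunc.le
  -- the common open sets
  have hopen1 : ∀ V W : Set G, IsOpen[τ₁] V → IsOpen[τ₁] (V - W) := by
    intro V W hV
    letI := τ₁
    have : IsTopologicalAddGroup G := h₁.2
    exact hV.sub_right
  have hopen2 : ∀ V W : Set G, IsOpen[τ₂] W → IsOpen[τ₂] (V - W) := by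
    intro V W hW
    letI := τ₂
    have : IsTopologicalAddGroup G := h₂.2
    exact hW.sub_left
  have hcofin : ∀ V W : Set G, IsOpen[τ₁] V → IsOpen[τ₂] W → V.Nonempty → W.Nonempty →
      (V - W)ᶜ.Finite := by
    intro V W hV hW hVn hWn
    rcases (hind (V - W)).1 ⟨hopen1 V W hV, hopen2 V W hW⟩ with h | h
    · exact absurd h (hVn.sub hWn).ne_empty
    · exact h
  -- nonempty `τ₁`-open sets are infinite
  have hinf1 : ∀ V : Set G, IsOpen[τ₁] V → V.Nonempty → V.Infinite := by
    intro V hV hVn hfin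
    obtain ⟨x, hx⟩ := hVn
    have hdisc : ∀ U : Set G, IsOpen[τ₁] U := by
      letI := τ₁
      have : T2Space G := h₁.1
      have : IsTopologicalAddGroup G := h₁.2
      have h0 : IsOpen ({x} : Set G) := by
        have : ({x} : Set G) = V \ (V \ {x}) := by
          ext y
          constructor
          · rintro rfl
            exact ⟨hx, fun h => h.2 rfl⟩
          · rintro ⟨h1, h2⟩
            by_contra hne
            exact h2 ⟨h1, hne⟩
        rw [this]
        exact hV.sdiff (hfin.subset Set.sdiff_subset).isClosed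
      have h1 : IsOpen ({0} : Set G) := by
        have : ({0} : Set G) = (fun y => y + x) ⁻¹' {x} := by
          ext y; simp
        rw [this]
        exact h0.preimage (continuous_add_const x)
      have : DiscreteTopology G := discreteTopology_iff_isOpen_singleton_zero.2 h1
      exact fun U => isOpen_discrete U
    obtain ⟨a, b, hab⟩ := exists_pair_ne G
    obtain ⟨U, W, hU, hW, haU, hbW, hUW⟩ :
        ∃ U W : Set G, IsOpen[τ₂] U ∧ IsOpen[τ₂] W ∧ a ∈ U ∧ b ∈ W ∧ Disjoint U W := by
      letI := τ₂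
      have : T2Space G := h₂.1
      exact t2_separation hab
    have e1 : Uᶜ.Finite := by
      rcases (hind U).1 ⟨hdisc U, hU⟩ with h | h
      · exact absurd h (Set.Nonempty.ne_empty ⟨a, haU⟩)
      · exact h
    have e2 : Wᶜ.Finite := by
      rcases (hind W).1 ⟨hdisc W, hW⟩ with h | h
      · exact absurd h (Set.Nonempty.ne_empty ⟨b, hbW⟩)
      · exact h
    have e3 : (univ : Set G) ⊆ Uᶜ ∪ Wᶜ := by
      intro y _
      by_cases hy : y ∈ U
      · exact Or.inr (Set.disjoint_left.1 hUW hy)
      · exact Or.inl hy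
    exact Set.infinite_univ ((e1.union e2).subset e3)
  -- a nonempty `τ₁`-open set meets a nonempty `τ₂`-open set
  have hmeet : ∀ V W : Set G, IsOpen[τ₁] V → IsOpen[τ₂] W → V.Nonempty → W.Nonempty →
      (V ∩ W).Nonempty := by
    intro V W hV hW ⟨v, hv⟩ hWn
    obtain ⟨V', U, hV', hU, hv', h0U, hsub⟩ : ∃ V' U : Set G, IsOpen[τ₁] V' ∧ IsOpen[τ₁] U ∧
        v ∈ V' ∧ (0 : G) ∈ U ∧ V' + U ⊆ V := by
      letI := τ₁
      have : IsTopologicalAddGroup G := h₁.2
      have hc : Continuous fun p : G × G => p.1 + p.2 := continuous_add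
      have h1 : (fun p : G × G => p.1 + p.2) ⁻¹' V ∈ 𝓝 (v, (0 : G)) := by
        refine hc.continuousAt.preimage_mem_nhds (hV.mem_nhds ?_)
        simpa using hv
      rw [nhds_prod_eq, Filter.mem_prod_iff] at h1
      obtain ⟨s, hs, t, ht, hst⟩ := h1
      obtain ⟨s', hs's, hs'o, hvs'⟩ := mem_nhds_iff.1 hs
      obtain ⟨t', ht't, ht'o, h0t'⟩ := mem_nhds_iff.1 ht
      refine ⟨s', t', hs'o, ht'o, hvs', h0t', ?_⟩
      rintro _ ⟨p, hp, q, hq, rfl⟩
      exact hst (show (p, q) ∈ s ×ˢ t from ⟨hs's hp, ht't hq⟩)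
    have hfin := hcofin V' W hV' hW ⟨v, hv'⟩ hWn
    have hUinf := hinf1 U hU ⟨0, h0U⟩
    have hnegU : (-U).Infinite := by
      rw [← Set.image_neg_eq_neg]
      exact hUinf.image (neg_injective.injOn)
    obtain ⟨y, hyU, hy⟩ : ∃ y ∈ -U, y ∉ (V' - W)ᶜ := hnegU.exists_notMem_finite hfin
    rw [Set.notMem_compl_iff] at hy
    obtain ⟨p, hp, w, hw, rfl⟩ := hy
    refine ⟨w, ?_, hw⟩
    have hU' : -(p - w) ∈ U := hyU
    have : p + -(p - w) ∈ V := hsub ⟨p, hp, _, hU', rfl⟩
    simpa using this
  have hmeet' : ∀ V W : Set G, IsOpen[τ₁] V → IsOpen[τ₂] W → V.Nonempty → W.Nonempty →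
      (V ∩ W).Nonempty := hmeet
  obtain ⟨V, hV, hVlf⟩ := exists_locallyFinite τ₁ h₁ hunc A hA hcard
  obtain ⟨W, hW, hWlf⟩ := exists_locallyFinite τ₂ h₂ hunc A hA hcard
  have hchoose : ∀ n, ∃ y, y ∈ V n ∧ y ∈ W n := by
    intro n
    obtain ⟨y, hy⟩ := hmeet (V n) (W n) (hV n).1 (hW n).1 (hV n).2 (hW n).2
    exact ⟨y, hy.1, hy.2⟩
  choose y hyV hyW using hchoose
  have hclosed1 : IsOpen[τ₁] (range y)ᶜ := by
    letI := τ₁
    have : T2Space G := h₁.1
    have h : LocallyFinite fun n => ({y n} : Set G) :=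
      hVlf.subset fun n => Set.singleton_subset_iff.2 (hyV n)
    have := h.isClosed_iUnion fun n => isClosed_singleton
    rw [Set.iUnion_singleton_eq_range] at this
    exact this.isOpen_compl
  have hclosed2 : IsOpen[τ₂] (range y)ᶜ := by
    letI := τ₂
    have : T2Space G := h₂.1
    have h : LocallyFinite fun n => ({y n} : Set G) :=
      hWlf.subset fun n => Set.singleton_subset_iff.2 (hyW n)
    have := h.isClosed_iUnion fun n => isClosed_singleton
    rw [Set.iUnion_singleton_eq_range] at this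
    exact this.isOpen_compl
  have hfinY : (range y).Finite := by
    rcases (hind (range y)ᶜ).1 ⟨hclosed1, hclosed2⟩ with h | h
    · exfalso
      have huniv : range y = univ := by
        rwa [Set.compl_empty_iff] at h
      have hle : #G ≤ ℵ₀ := by
        rw [← Cardinal.mk_univ, ← huniv]
        exact (Set.countable_range y).le_aleph0
      exact absurd hle (not_le.2 hunc)
    · rwa [compl_compl] at h
  -- some value is taken infinitely often, contradicting local finiteness
  obtain ⟨x, hx⟩ : ∃ x, {n | y n = x}.Infinite := by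
    by_contra hcon
    push Not at hcon
    have : (univ : Set ℕ) ⊆ ⋃ x ∈ range y, {n | y n = x} := by
      intro n _
      exact mem_biUnion (mem_range_self n) rfl
    exact Set.infinite_univ ((hfinY.biUnion fun x _ => hcon x).subset this)
  obtain ⟨N, hN, hNfin⟩ := hVlf x
  refine hx (hNfin.subset ?_)
  intro n hn
  have hn' : y n = x := hn
  refine ⟨y n, hyV n, ?_⟩
  rw [hn']
  letI := τ₁
  exact mem_of_mem_nhds hN

/-! ### The group -/

/-- The iterated power types `ℕ, 𝒫 ℕ, 𝒫 𝒫 ℕ, …`. -/
def PowType : ℕ → Type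
  | 0 => ℕ
  | n + 1 => Set (PowType n)

/-- The disjoint union of the iterated power types; its cardinality is beth-omega. -/
def BethOmega : Type := Σ n, PowType n

/-- The elementary abelian 2-group of rank beth-omega. -/
abbrev BigGroup : Type := BethOmega →₀ ZMod 2

theorem mk_powType_succ (n : ℕ) : #(PowType (n + 1)) = 2 ^ #(PowType n) :=
  Cardinal.mk_set

theorem mk_powType_lt_succ (n : ℕ) : #(PowType n) < #(PowType (n + 1)) := by
  rw [mk_powType_succ]; exact Cardinal.cantor _

theorem mk_powType_mono : Monotone fun n => #(PowType n) :=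
  monotone_nat_of_le_succ fun n => (mk_powType_lt_succ n).le

theorem aleph0_le_powType (n : ℕ) : ℵ₀ ≤ #(PowType n) := by
  have h : #(PowType 0) ≤ #(PowType n) := mk_powType_mono (Nat.zero_le n)
  have h0 : #(PowType 0) = ℵ₀ := Cardinal.mk_nat
  rwa [h0] at h

theorem powType_le (n : ℕ) : #(PowType n) ≤ #BigGroup := by
  classical
  refine Cardinal.mk_le_of_injective
    (f := fun x : PowType n => (Finsupp.single (⟨n, x⟩ : BethOmega) (1 : ZMod 2))) ?_
  intro x y hxy
  have h := (Finsupp.single_left_inj (one_ne_zero (α := ZMod 2))).1 hxy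
  exact sigma_mk_injective h

/-- The elements supported in the first `n + 1` levels. -/
def level (n : ℕ) : Set BigGroup := {f | ∀ y ∈ f.support, y.1 ≤ n}

theorem mk_level_le (n : ℕ) : #(level n) ≤ #(PowType n) := by
  classical
  let S : Set BethOmega := {y | y.1 ≤ n}
  have e1 : #(level n) = #(S →₀ ZMod 2) :=
    Cardinal.mk_congr (Finsupp.restrictSupportEquiv S (ZMod 2))
  have e2 : #S ≤ #(PowType n) := by
    have hsub : S ⊆ ⋃ m : Fin (n + 1), Set.range (fun x : PowType m => (⟨m, x⟩ : BethOmega)) := by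
      rintro ⟨m, x⟩ hm
      exact Set.mem_iUnion.2 ⟨⟨m, Nat.lt_succ_of_le hm⟩, x, rfl⟩
    refine (Cardinal.mk_le_mk_of_subset hsub).trans ?_
    refine (Cardinal.mk_iUnion_le_sum_mk).trans ?_
    refine (Cardinal.sum_le_sum _ (fun _ => #(PowType n)) fun m => ?_).trans ?_
    · exact Cardinal.mk_range_le.trans (mk_powType_mono (Nat.le_of_lt_succ m.2))
    · rw [Cardinal.sum_const']
      refine Cardinal.mul_le_of_le (aleph0_le_powType n) ?_ le_rfl
      exact (Cardinal.lt_aleph0_of_finite _).le.trans (aleph0_le_powType n)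
  have : Infinite S := by
    refine Infinite.of_injective (fun k : ℕ => (⟨⟨0, k⟩, Nat.zero_le n⟩ : S)) ?_
    intro a b hab
    have h1 := congrArg Subtype.val hab
    have h2 : (⟨0, a⟩ : Σ n, PowType n) = ⟨0, b⟩ := h1
    exact sigma_mk_injective h2
  rw [e1, Cardinal.mk_finsupp_of_infinite]
  refine max_le e2 ?_
  exact (Cardinal.lt_aleph0_of_finite _).le.trans (aleph0_le_powType n)

theorem iUnion_level : ⋃ n, level n = univ := by
  refine Set.eq_univ_of_forall fun f => ?_
  refine Set.mem_iUnion.2 ⟨f.support.sup Sigma.fst, ?_⟩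
  intro y hy
  exact Finset.le_sup (f := Sigma.fst) hy

theorem two_power_level_lt (n : ℕ) : 2 ^ (2 ^ #(level n) : Cardinal.{0}) < #BigGroup := by
  have h1 : (2 ^ (2 ^ #(level n) : Cardinal.{0}) : Cardinal.{0}) ≤
      2 ^ (2 ^ #(PowType n) : Cardinal.{0}) :=
    Cardinal.power_le_power_left two_ne_zero
      (Cardinal.power_le_power_left two_ne_zero (mk_level_le n))
  have h2 : (2 ^ (2 ^ #(PowType n) : Cardinal.{0}) : Cardinal.{0}) = #(PowType (n + 2)) := by
    rw [mk_powType_succ, mk_powType_succ]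
  refine lt_of_le_of_lt (h1.trans h2.le) ?_
  exact lt_of_lt_of_le (mk_powType_lt_succ _) (powType_le _)

theorem aleph0_lt_bigGroup : ℵ₀ < #BigGroup :=
  lt_of_le_of_lt (aleph0_le_powType 0) (lt_of_lt_of_le (mk_powType_lt_succ 0) (powType_le 1))

/-- Every infinite group of exponent two is Zariski-cofinite. -/
theorem isZariskiCofinite_of_exponent_two (G : Type u) [AddCommGroup G]
    (h2 : ∀ x : G, x + x = 0) : IsZariskiCofinite G := by
  classical
  have hsmul' : ∀ (n : ℤ), (∀ x : G, n • x = 0) ∨ (∀ x : G, n • x = x) := by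
    intro n
    rcases Int.even_or_odd' n with ⟨k, hk | hk⟩
    · left
      intro x
      rw [hk, mul_comm, mul_smul, two_smul, h2, smul_zero]
    · right
      intro x
      rw [hk, add_smul, mul_comm, mul_smul, two_smul, h2, smul_zero, one_smul, zero_add]
  intro U
  constructor
  · intro hU
    induction hU with
    | basic s hs =>
      obtain ⟨n, g, rfl⟩ := hs
      rcases hsmul' n with h | h
      · by_cases hg : (0 : G) = g
        · left
          ext x
          simp [h x, hg]
        · right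
          have : ({x : G | n • x = g}ᶜ)ᶜ = ∅ := by
            ext x
            simp [h x, hg]
          rw [this]
          exact Set.finite_empty
      · right
        have : ({x : G | n • x = g}ᶜ)ᶜ = {g} := by
          ext x
          simp [h x]
        rw [this]
        exact Set.finite_singleton g
    | univ => right; simp
    | inter s t _ _ hs ht =>
      rcases hs with hs | hs
      · left; rw [hs, Set.empty_inter]
      · rcases ht with ht | ht
        · left; rw [ht, Set.inter_empty]
        · right; rw [Set.compl_inter]; exact hs.union ht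
    | sUnion S _ hS =>
      by_cases hall : ∀ s ∈ S, s = ∅
      · left
        exact Set.sUnion_eq_empty.2 hall
      · right
        push Not at hall
        obtain ⟨s, hsS, hs⟩ := hall
        rcases hS s hsS with h | h
        · exact absurd h hs.ne_empty
        · exact h.subset (Set.compl_subset_compl.2 (Set.subset_sUnion_of_mem hsS))
  · letI := zariskiTopology G
    rintro (rfl | hU)
    · exact isOpen_empty
    · have : U = ⋂ g ∈ Uᶜ, {x : G | (1 : ℤ) • x = g}ᶜ := by
        ext x
        simp only [one_smul, Set.mem_iInter, Set.mem_compl_iff, Set.mem_setOf_eq]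
        constructor
        · intro hx g hg hxg
          exact hg (hxg ▸ hx)
        · intro h
          by_contra hx
          exact h x hx rfl
      rw [this]
      refine hU.isOpen_biInter fun g _ => ?_
      exact TopologicalSpace.isOpen_generateFrom_of_mem ⟨1, g, rfl⟩

theorem result : ∃ (G : Type) (_ : AddCommGroup G), Uncountable G ∧ IsZariskiCofinite G ∧
    ∀ τ₁ τ₂ : TopologicalSpace G, IsHausdorffGroupTopology G τ₁ →
      IsHausdorffGroupTopology G τ₂ → ¬ Independent τ₁ τ₂ := by
  refine ⟨BigGroup, inferInstance, ?_, ?_, ?_⟩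
  · exact Cardinal.aleph0_lt_mk_iff.1 aleph0_lt_bigGroup
  · refine isZariskiCofinite_of_exponent_two BigGroup fun x => ?_
    ext y
    exact CharTwo.add_self_eq_zero (x y)
  · exact not_independent aleph0_lt_bigGroup level iUnion_level two_power_level_lt

end Pool.Agent.Results.MP_79deac_al.NoIndependentPair
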